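import Pool.Agent.N179.TL.Fin
import Pool.Agent.TH132.A.HMain
import Pool.Agent.TH132.A.Num

/-!
# The conjecture of Hodge type for products with varieties whose Frobenius eigenvalues have a
property depending on the field
-/

set_option autoImplicit false
set_option linter.unusedSectionVars false

open CategoryTheory AlgebraicGeometry
open scoped TensorProduct

universe u v

namespace Pool.Agent.N179.HT

open Pool.Agent.H914 Pool.Agent.H914.VarClass Pool.Agent.H914.VarClass.Obj
  Pool.Agent.H914.WeilCohomology Pool.Agent.H281R3.HT Pool.Agent.W552 Pool.Agent.W534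
  Pool.Agent.W458.RK Pool.Agent.W458.MF Pool.Agent.TH132.A Pool.Agent.TH121.KT
  Pool.Agent.N179.TL

variable {k : Type u} [Field k] {𝒱 : VarClass k} {ops : CycleOps 𝒱}
  {W : WeilCohomology.{u, v} ops} {X U : 𝒱.Obj} {p : ℕ} {Φ : FrobSystem W p}
  {PP : ℕ → W.K → Prop}

/-- The classes of cycles on `X × U` are combinations of products of classes of cycles on `X` and
classes on `U`. -/
theorem span_of_tateTimesL [IsAlgClosed W.K] (hT : TateTimesL Φ PP X)
    (hpow : ∀ m ν (n : ℕ), 0 < n → PP m ν → PP (m * n) (ν ^ n))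
    (hU : ∀ ν, Module.End.HasEigenvalue (W.map (Φ.Fr U)).toLinearMap ν → PP (Φ.e U) ν) {c : ℕ}
    {z : (X.prod U).Cycles} (hz : (X.prod U).IsCyc c z) :
    W.cl _ z ∈ Submodule.span W.K {w | ∃ x y, AS W X x ∧ w = ext W x y} := by
  obtain ⟨a, b, ha, hb, hab, h1⟩ := frob_comm Φ (fst X U)
  obtain ⟨a', b', ha', hb', hab', h2⟩ := frob_comm Φ (snd X U)
  obtain ⟨s, hs, h3⟩ := Φ.cyc hz
  have h4 := frob_mul' Φ h3 (a * a')
  obtain ⟨x, hx⟩ := (W.kunneth X U).2 (W.cl _ z)
  have hcomm : ∀ x : W.H X ⊗[W.K] W.H U,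
      W.map (W534.iter (Φ.Fr (X.prod U)) (a * a' * s)) (kunnethMap (W.map (fst X U))
        (W.map (snd X U)) x) = kunnethMap (W.map (fst X U)) (W.map (snd X U))
          (TensorProduct.map (frob Φ X (b * (a' * s))) (frob Φ U (b' * (a * s))) x) := by
    intro x
    induction x using TensorProduct.induction_on with
    | zero => rw [map_zero, map_zero, map_zero, map_zero]
    | add x y hx hy => rw [map_add, map_add, hx, hy, map_add, map_add]
    | tmul x y =>
      change W.map _ (W.map (fst X U) x * W.map (snd X U) y) =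
        W.map (fst X U) (W.map (W534.iter (Φ.Fr X) (b * (a' * s))) x) *
          W.map (snd X U) (W.map (W534.iter (Φ.Fr U) (b' * (a * s))) y)
      rw [map_mul, ← h1, ← h2, show a * (a' * s) = a * a' * s by ring,
        show a' * (a * s) = a * a' * s by ring]
  have hlev : Φ.e U * (b' * (a * s)) = Φ.e X * (b * (a' * s)) := by
    calc Φ.e U * (b' * (a * s)) = (a' * Φ.e (X.prod U)) * (a * s) := by rw [hab']; ring
      _ = (a * Φ.e (X.prod U)) * (a' * s) := by ring
      _ = Φ.e X * (b * (a' * s)) := by rw [hab]; ring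
  have hG : ∀ ν, Module.End.HasEigenvalue (frob Φ U (b' * (a * s))) ν →
      PP (Φ.e X * (b * (a' * s))) ν := by
    rw [frob_pow_eq', ← hlev]
    exact PP_powL hU hpow (Nat.mul_pos hb' (Nat.mul_pos ha hs))
  have h6 : TensorProduct.map (frob Φ X (b * (a' * s))) (frob Φ U (b' * (a * s))) x =
      ((card Φ X (b * (a' * s)) : W.K)) ^ (c : ℤ) • x := by
    apply (W.kunneth X U).1
    rw [← hcomm, hx, h4, map_smul, hx, zpow_natCast, W534.card, Nat.cast_pow, ← pow_mul]
    congr 2
    calc Φ.e (X.prod U) * (a * a' * s) * c = (a * Φ.e (X.prod U)) * (a' * s) * c := by ring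
      _ = Φ.e X * (b * (a' * s)) * c := by rw [hab]; ring
  have h7 : Killed (TensorProduct.map (frob Φ X (b * (a' * s))) (frob Φ U (b' * (a * s))))
      ((card Φ X (b * (a' * s)) : W.K) ^ (c : ℤ)) 1 x := by
    refine killed_one_iff.2 ⟨1, one_pos, ?_⟩
    rw [pow_one, pow_one]
    exact h6
  have h8 := hT (b * (a' * s)) (Nat.mul_pos hb (Nat.mul_pos ha' hs)) (W.H U)
    (frob Φ U (b' * (a * s))) hG (c : ℤ) 1 x h7
  rw [← hx]
  clear hx h7 h6
  induction h8 using Submodule.span_induction with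
  | mem w hw =>
    obtain ⟨i, y, v, hy, -, rfl⟩ := hw
    rw [cycSub] at hy
    induction hy using Submodule.span_induction with
    | mem y hy =>
      obtain ⟨z', hz', rfl⟩ := hy
      exact Submodule.subset_span ⟨_, v, AS.of ⟨z', hz', rfl⟩, rfl⟩
    | zero => rw [TensorProduct.zero_tmul, map_zero]; exact Submodule.zero_mem _
    | add x y _ _ hx hy => rw [TensorProduct.add_tmul, map_add]; exact Submodule.add_mem _ hx hy
    | smul c x _ hx =>
      rw [← TensorProduct.smul_tmul', map_smul]; exact Submodule.smul_mem _ _ hx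
  | zero => rw [map_zero]; exact Submodule.zero_mem _
  | add x y _ _ hx hy => rw [map_add]; exact Submodule.add_mem _ hx hy
  | smul c x _ hx => rw [map_smul]; exact Submodule.smul_mem _ _ hx

/-- Homological and numerical equivalence coincide. -/
theorem homEqNum_of_tateTimesL [IsAlgClosed W.K] (hp : 1 < p) (hT : TateTimesL Φ PP X)
    (h1PP : ∀ m, 0 < m → PP m 1) : HomEqNum W X :=
  homEqNum_of_tateTimesP hp (hT.one h1PP) rfl

/-- The cycles on the product with a variety whose eigenvalues have the property split. -/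
theorem tens_of_tateTimesL [IsAlgClosed W.K] (hp : 1 < p) (hT : TateTimesL Φ PP X)
    (h1PP : ∀ m, 0 < m → PP m 1)
    (hpow : ∀ m ν (n : ℕ), 0 < n → PP m ν → PP (m * n) (ν ^ n))
    (hU : ∀ ν, Module.End.HasEigenvalue (W.map (Φ.Fr U)).toLinearMap ν → PP (Φ.e U) ν)
    {z : W.H (X.prod U)} (hz : AS W (X.prod U) z) : z ∈ tens W X U := by
  refine mem_tens (homEqNum_of_tateTimesL hp hT h1PP) hz ?_
  refine AS.ind (p := fun z => z ∈ Submodule.span W.K {w | ∃ x y, AS W X x ∧ w = ext W x y})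
    ?_ (fun x y hx hy => Submodule.add_mem _ hx hy) hz
  rintro c _ ⟨z, hz, rfl⟩
  exact span_of_tateTimesL hT hpow hU hz

/-- The reduction of the conjecture of Hodge type for the products with all varieties whose
Frobenius eigenvalues have the property. -/
theorem hodge_timesL [IsAlgClosed W.K] (hp : 1 < p) {Q : Polarized 𝒱}
    (hT : TateTimesL Φ PP Q.X) (h1PP : ∀ m, 0 < m → PP m 1)
    (hpow : ∀ m ν (n : ℕ), 0 < n → PP m ν → PP (m * n) (ν ^ n))
    (hQ : ∃ f, Lw W Q.X Q.D f) (h1 : (1 : W.H Q.X) ≠ 0)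
    (hH : HodgeType W Q.X Q.D) {U : Polarized 𝒱}
    (hU : ∀ ν, Module.End.HasEigenvalue (W.map (Φ.Fr U.X)).toLinearMap ν → PP (Φ.e U.X) ν)
    (hB : U.X.IsCyc 1 U.D) (hHL : HardLefschetz W U.X U.D) :
    HodgeType W (Q.prod ops U).X (Q.prod ops U).D ↔ HodgeType W U.X U.D := by
  obtain ⟨f₀, F₀⟩ := hQ
  obtain ⟨f, F, hf⟩ := exists_lw F₀.hD F₀.hl
  obtain ⟨g, G, hg⟩ := exists_lw hB hHL
  have hst : Stable W Q.X f := stable_of_lefschetzA F.hD F.sl2
    (lefschetzA_of_D F.hD F.hl (homEqNum_of_tateTimesL hp hT h1PP))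
  exact ⟨fun h => hodge_of_prod F G hH h1 h, fun h => hodge_prod_of
    (fun z hz => tens_of_tateTimesL hp hT h1PP hpow hU hz) F hf F.hl hst hH G hg h⟩

end Pool.Agent.N179.HT
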