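import Pool.Agent.N179.HT.Rel
import Pool.Agent.N179.HT.Neat
import Pool.Agent.Y138.KH.Diag

/-!
# The eigenvalues of the powers of the Frobenius endomorphisms
-/

set_option autoImplicit false
set_option linter.unusedSectionVars false

open CategoryTheory AlgebraicGeometry NumberField

universe u v

namespace Pool.Agent.N179.HT

open Pool.Agent.H914 Pool.Agent.H914.VarClass Pool.Agent.H914.VarClass.Obj
  Pool.Agent.H914.WeilCohomology Pool.Agent.H281R3.HT Pool.Agent.W552 Pool.Agent.W534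
  Pool.Agent.W458.RK Pool.Agent.W458.MF Pool.Agent.TH132.A Pool.Agent.W536.RR
  Pool.Agent.TH121.KT Pool.Agent.W517.K3 Pool.Agent.Y138.KC Pool.Agent.W290.MF
  Pool.Agent.Y138.KH

variable {k : Type u} [Field k] {𝒱 : VarClass k} {ops : CycleOps 𝒱}
  {W : WeilCohomology.{u, v} ops} {p : ℕ} {Φ : FrobSystem W p} {X : 𝒱.Obj} {e : ℕ}
  {E : Type} [Field E] {α : E}

/-- an eigenvalue on homogeneous classes -/
theorem weight_iter [IsAlgClosed W.K] {s : ℕ} {x : ℕ × W.K}
    (hx : IsWeight W (W534.iter (Φ.Fr X) s) x) :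
    ∃ μ : W.K, IsWeight W (W534.iter (Φ.Fr X) 1) (x.1, μ) ∧ μ ^ s = x.2 := by
  obtain ⟨d, β⟩ := x
  obtain ⟨c, hc, hc0, hcβ⟩ := hx
  simp only at hc hcβ
  set T : Module.End W.K (W.H X) := (W.map (Φ.Fr X)).toLinearMap with hT
  have hTs : ∀ v, (T ^ s) v = W.map (W534.iter (Φ.Fr X) s) v := by
    intro v
    rw [W534.map_iter, Module.End.pow_apply]
    rfl
  let G : Submodule W.K (W.H X) := W.gr X d ⊓ LinearMap.ker (T ^ s - β • (1 : Module.End _ _))
  have hG : ∀ v ∈ G, T v ∈ G := by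
    rintro v ⟨h1, h2⟩
    refine ⟨W.map_mem (Φ.Fr X) h1, ?_⟩
    rw [SetLike.mem_coe, LinearMap.mem_ker] at h2 ⊢
    have h3 : (T ^ s - β • (1 : Module.End W.K (W.H X))) (T v) =
        T ((T ^ s - β • (1 : Module.End W.K (W.H X))) v) := by
      rw [LinearMap.sub_apply, LinearMap.sub_apply, map_sub, LinearMap.smul_apply,
        LinearMap.smul_apply, Module.End.one_apply, Module.End.one_apply, map_smul,
        ← Module.End.mul_apply, ← Module.End.mul_apply, ← pow_succ, ← pow_succ']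
    rw [h3, h2, map_zero]
  have hcG : c ∈ G := ⟨hc, by
    rw [SetLike.mem_coe, LinearMap.mem_ker, LinearMap.sub_apply, hTs, hcβ, LinearMap.smul_apply,
      Module.End.one_apply, sub_self]⟩
  have : Nontrivial G := ⟨⟨⟨c, hcG⟩, 0, fun h => hc0 (congrArg Subtype.val h)⟩⟩
  obtain ⟨μ, hμ⟩ := Module.End.exists_eigenvalue (T.restrict hG)
  obtain ⟨v, hv, hv0⟩ := hμ.exists_hasEigenvector
  have h1 : T (v : W.H X) = μ • (v : W.H X) :=
    congrArg Subtype.val (Module.End.mem_eigenspace_iff.1 hv)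
  have hv0' : (v : W.H X) ≠ 0 := fun h => hv0 (Subtype.ext h)
  refine ⟨μ, ⟨v, v.2.1, hv0', (map_iter_one _).trans h1⟩, ?_⟩
  have h2 : (T ^ s) (v : W.H X) = μ ^ s • (v : W.H X) := by
    rw [Module.End.pow_apply]
    exact W534.iterate_eig (fun a x => map_smul T a x) h1 s
  have h3 := LinearMap.mem_ker.1 v.2.2
  rw [LinearMap.sub_apply, h2, LinearMap.smul_apply, Module.End.one_apply, ← sub_smul] at h3
  exact sub_eq_zero.1 ((smul_eq_zero.1 h3).resolve_right hv0')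

theorem tateRel_pow {K : Type v} [Field K] {q s d : ℕ} {μ : K}
    (h : IsTateRel q ({(d, μ)} : Multiset (ℕ × K))) :
    IsTateRel (q ^ s) ({(d, μ ^ s)} : Multiset (ℕ × K)) := by
  obtain ⟨j, hj, m, hm, hpr⟩ := h
  refine ⟨j, by simpa using hj, m, hm, ?_⟩
  rw [Multiset.map_singleton, Multiset.prod_singleton] at hpr ⊢
  change (μ ^ s) ^ m = _
  change μ ^ m = _ at hpr
  rw [← pow_mul, mul_comm, pow_mul, hpr, Nat.cast_pow, ← pow_mul, ← pow_mul, mul_comm s]

/-- The eigenvalues on the cohomology. -/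
theorem cases_iter [IsAlgClosed W.K] (hX : HasWeilNumber Φ X e α) {s : ℕ}
    {x : ℕ × W.K} (hx : IsWeight W (W534.iter (Φ.Fr X) s) x) :
    IsTateRel (p ^ (Φ.e X * s)) ({x} : Multiset (ℕ × W.K)) ∨
      ∃ σ : E →+* W.K, IsLet (p ^ (Φ.e X * s)) X.dim e s α σ x := by
  obtain ⟨μ, hμ, hs'⟩ := weight_iter hx
  obtain ⟨d, β⟩ := x
  simp only at hs' hμ
  subst hs'
  rcases weight_cases hX hμ with h | ⟨h1, σ, N, hN, h2⟩
  · left
    rw [pow_mul]
    exact tateRel_pow h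
  · right
    refine ⟨σ, h1, N, hN, ?_⟩
    have h4 := congrArg (fun z => z ^ s) h2
    simp only [mul_pow, ← pow_mul] at h4
    change (μ ^ s) ^ (2 * e * N) =
      ((p ^ (Φ.e X * s) : ℕ) : W.K) ^ (X.dim * (e * N)) * σ α ^ (2 * N * s)
    have h5 : ((p ^ (Φ.e X * s) : ℕ) : W.K) = ((p ^ Φ.e X : ℕ) : W.K) ^ s := by
      rw [pow_mul, Nat.cast_pow]
    rw [h5, ← pow_mul, ← pow_mul, show s * (2 * e * N) = 2 * e * N * s by ring,
      show s * (X.dim * (e * N)) = X.dim * (e * N) * s by ring]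
    exact h4

/-- algebraic eigenvectors -/
theorem tateRel_of_alg [IsAlgClosed W.K] {d : ℕ} {β : W.K} {y : W.H X} (h2 : y ∈ algSpan W X)
    (hy : y ∈ W.gr X d) (hy0 : y ≠ 0) (hyβ : W.map (Φ.Fr X) y = β • y) :
    IsTateRel (p ^ Φ.e X) ({(d, β)} : Multiset (ℕ × W.K)) := by
  obtain ⟨j, rfl⟩ := even_of_alg h2 hy hy0
  have h3 := spanCycles_of_alg h2 hy
  obtain ⟨r, hr, h4⟩ := exists_span_eig Φ X j
  have h5 : frob Φ X r y = β ^ r • y := by
    rw [frob_apply, W534.map_iter]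
    exact W534.iterate_eig (fun a x => map_smul (W.map (Φ.Fr X)) a x) hyβ r
  rw [h4 y h3, card_pow] at h5
  refine ⟨j, ?_, r, hr, ?_⟩
  · simp
  · have h6 := smul_left_injective W.K hy0 h5
    rw [Multiset.map_singleton, Multiset.prod_singleton]
    change β ^ r = _
    rw [← h6, Nat.cast_pow, ← pow_mul]
    congr 1
    ring

/-- The eigenvalues on algebraic cohomology. -/
theorem alg_iter [IsAlgClosed W.K] (hX : ∀ x : W.H X, x ∈ algSpan W X) {s : ℕ}
    {x : ℕ × W.K} (hx : IsWeight W (W534.iter (Φ.Fr X) s) x) :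
    IsTateRel (p ^ (Φ.e X * s)) ({x} : Multiset (ℕ × W.K)) := by
  obtain ⟨μ, ⟨c, hc, hc0, hcμ⟩, hs'⟩ := weight_iter hx
  obtain ⟨d, β⟩ := x
  simp only at hs' hc hcμ
  subst hs'
  rw [pow_mul]
  rw [map_iter_one] at hcμ
  exact tateRel_pow (tateRel_of_alg (hX c) hc hc0 hcμ)

theorem diag_iter (s : ℕ) (h : Diagonalizable W (W534.iter (Φ.Fr X) 1)) :
    Diagonalizable W (W534.iter (Φ.Fr X) s) := by
  unfold Diagonalizable at h ⊢
  rw [eq_top_iff, ← h]
  refine iSup_le fun μ => le_trans ?_ (le_iSup _ (μ ^ s))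
  intro v hv
  rw [Module.End.mem_eigenspace_iff] at hv ⊢
  have hv' : W.map (Φ.Fr X) v = μ • v := (map_iter_one v).symm.trans hv
  change W.map (W534.iter (Φ.Fr X) s) v = _
  rw [W534.map_iter]
  exact W534.iterate_eig (fun a x => map_smul (W.map (Φ.Fr X)) a x) hv' s

theorem diag_of_alg [IsAlgClosed W.K] (hX : ∀ x : W.H X, x ∈ algSpan W X) :
    Diagonalizable W (W534.iter (Φ.Fr X) 1) := by
  rw [Diagonalizable, eq_top_iff]
  intro x _
  have h1 := alg_le_span Φ X (hX x)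
  refine (Submodule.span_le.2 ?_) h1
  rintro v ⟨-, β, hβ⟩
  refine Submodule.mem_iSup_of_mem β (Module.End.mem_eigenspace_iff.2 ?_)
  exact (map_iter_one v).trans hβ

/-- The Tate conjecture for `X × Y` and the product of powers of the Frobenius endomorphisms. -/
theorem tate_pair_gen {P Q : Polarized 𝒱} {s t M : ℕ} (hM : 0 < M) (hs : Φ.e P.X * s = M)
    (ht : Φ.e Q.X * t = M) (hT : ∀ c, TateIn Φ (P.X.prod Q.X) c) :
    TateClassesAlgebraic W (P.X.prod Q.X)
      (pairMap (W534.iter (Φ.Fr P.X) s) (W534.iter (Φ.Fr Q.X) t)) (p ^ M) := by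
  obtain ⟨A, r, hA, hr, he, h⟩ := nest_level Φ ops hM 1
    (Fin.cons (α := fun _ => Polarized 𝒱) P (fun _ => Q)) (Fin.cons s (fun _ => t)) (by
      intro a
      refine Fin.cases ?_ (fun i => ?_) a
      · simpa [Fin.cons_zero] using hs
      · simpa [Fin.cons_succ] using ht)
  intro j c hc hcm
  obtain ⟨m, hm, hcm⟩ := hcm
  have h1 : IsTate Φ (P.X.prod Q.X) j c := by
    refine ⟨hc, A * m, Nat.mul_pos hA hm, ?_⟩
    have h2 : (⇑(W.map (W534.iter (Φ.Fr (P.X.prod Q.X)) A)) :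
        W.H (P.X.prod Q.X) → W.H (P.X.prod Q.X)) =
        W.map (W534.iter (pairMap (W534.iter (Φ.Fr P.X) s) (W534.iter (Φ.Fr Q.X) t)) r) :=
      funext h
    rw [W534.map_iter_mul, h2, ← W534.map_iter_mul, mul_comm r m, W534.map_iter_mul]
    have h3 : W.map (W534.iter (pairMap (W534.iter (Φ.Fr P.X) s) (W534.iter (Φ.Fr Q.X) t)) m) c =
        ((p ^ M : ℕ) : W.K) ^ (m * j) • c := by
      rw [W534.map_iter]
      exact hcm
    rw [W534.iterate_eig (fun a x => map_smul _ a x) h3 r, Nat.cast_pow, ← pow_mul, ← pow_mul]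
    congr 2
    have he' : A * Φ.e (P.X.prod Q.X) = r * M := he
    calc M * (m * j * r) = r * M * (m * j) := by ring
      _ = A * Φ.e (P.X.prod Q.X) * (m * j) := by rw [he']
      _ = Φ.e (P.X.prod Q.X) * (A * m) * j := by ring
  exact W397.MF.spanCycles_le_algSpan _ (hT j c h1)

end Pool.Agent.N179.HT
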