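import Pool.Agent.N179.HT.Cop
import Pool.Agent.N179.HT.Wt
import Pool.Agent.N179.HT.Tim

/-!
# Products of two factors
-/

set_option autoImplicit false
set_option linter.unusedSectionVars false

open CategoryTheory AlgebraicGeometry NumberField

universe u v

namespace Pool.Agent.N179.HT

open Pool.Agent.H914 Pool.Agent.H914.VarClass Pool.Agent.H914.VarClass.Obj
  Pool.Agent.H914.WeilCohomology Pool.Agent.H281R3.HT Pool.Agent.W552 Pool.Agent.W534
  Pool.Agent.W458.RK Pool.Agent.W458.MF Pool.Agent.TH132.A Pool.Agent.W536.RR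
  Pool.Agent.TH121.KT Pool.Agent.W517.K3 Pool.Agent.Y138.KC Pool.Agent.W290.MF
  Pool.Agent.Y138.KH Pool.Agent.N179.TL Pool.Agent.H485R3

section

variable {k : Type u} [Field k] {𝒱 : VarClass k} {ops : CycleOps 𝒱}
  {W : WeilCohomology.{u, v} ops} {p : ℕ} {Φ : FrobSystem W p}

/-- The eigenvalues of the Frobenius endomorphism occur on homogeneous classes. -/
theorem weight_of_eigenvalue {Y : 𝒱.Obj} {ν : W.K}
    (hν : Module.End.HasEigenvalue (W.map (Φ.Fr Y)).toLinearMap ν) :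
    ∃ d, IsWeight W (W534.iter (Φ.Fr Y) 1) (d, ν) := by
  obtain ⟨x, hx, hx0⟩ := hν.exists_hasEigenvector
  have hx1 : W.map (Φ.Fr Y) x = ν • x := Module.End.mem_eigenspace_iff.1 hx
  by_contra hcon
  push Not at hcon
  apply hx0
  have h4 := sum_proj (W.isInternal Y) (N := 2 * Y.dim + 1)
      (fun i hi => W.gr_eq_bot Y i (by omega))
  have h5 := congrArg (fun F => F x) h4
  beta_reduce at h5
  rw [LinearMap.sum_apply, Module.End.one_apply] at h5
  rw [← h5]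
  refine Finset.sum_eq_zero fun d _ => ?_
  by_contra h0
  refine hcon d ⟨proj (W.isInternal Y) d x, proj_mem _ _ _, h0, ?_⟩
  rw [map_iter_one, ← H281R3.HT.proj_map, hx1, map_smul]

/-- eigenvalues of the powers of the Frobenius endomorphism of `Y`, or one -/
def PY (Φ : FrobSystem W p) (Y : 𝒱.Obj) (m : ℕ) (ν : W.K) : Prop :=
  ν = 1 ∨ ∃ (t : ℕ) (ν₀ : W.K), 0 < t ∧ m = Φ.e Y * t ∧ ν = ν₀ ^ t ∧
    ∃ d, IsWeight W (W534.iter (Φ.Fr Y) 1) (d, ν₀)

theorem PY_pow {Y : 𝒱.Obj} (m : ℕ) (ν : W.K) (n : ℕ) (hn : 0 < n) (h : PY Φ Y m ν) :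
    PY Φ Y (m * n) (ν ^ n) := by
  rcases h with rfl | ⟨t, ν₀, ht, rfl, rfl, d, hd⟩
  · exact Or.inl (one_pow n)
  · exact Or.inr ⟨t * n, ν₀, Nat.mul_pos ht hn, by ring, by rw [pow_mul], d, hd⟩

theorem PY_self {Y : 𝒱.Obj} {ν : W.K}
    (hν : Module.End.HasEigenvalue (W.map (Φ.Fr Y)).toLinearMap ν) : PY Φ Y (Φ.e Y) ν := by
  obtain ⟨d, hd⟩ := weight_of_eigenvalue hν
  exact Or.inr ⟨1, ν, one_pos, (mul_one _).symm, (pow_one ν).symm, d, hd⟩

end

variable {k : Type u} [Field k] {𝒱 : VarClass k} {ops : CycleOps 𝒱}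
  {W : WeilCohomology.{u, v} ops} {p : ℕ} {Φ : FrobSystem W p}
  {r : ℕ} {X : Fin r → 𝒱.Obj} {e : Fin r → ℕ} {E : Fin r → Type} [∀ i, Field (E i)]
  [∀ i, NumberField (E i)] [∀ i, IsCMField (E i)] {α : ∀ i, E i}

/-- no relations with the eigenvalues of an algebraic factor -/
theorem noRel_tate [IsAlgClosed W.K] (hp : (p : W.K) ≠ 0) {n : Fin r → ℕ} {Y : 𝒱.Obj}
    (hN : NoRelation Φ (fun _ ν => ν = 1) X e α n)
    {m t : ℕ} {ν₀ : W.K} (hm : 0 < m) (ht : m = Φ.e Y * t) {d : ℕ}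
    (hT : IsTateRel (p ^ Φ.e Y) ({(d, ν₀)} : Multiset (ℕ × W.K)))
    (N' : ∀ i, (E i →+* W.K) → ℕ) (hN' : ∀ i, ∑ σ : E i →+* W.K, N' i σ ≤ n i) (D : ℤ) (N : ℕ)
    (hN0 : 0 < N)
    (hrel : letterProd α (fun i => N * (m * ∏ j ∈ Finset.univ.erase i, (e j * Φ.e (X j)))) N' *
      (ν₀ ^ t) ^ (N * ∏ j, (e j * Φ.e (X j))) =
        (p : W.K) ^ (m * D * (N * ∏ j, (e j * Φ.e (X j)) : ℕ)))
    (i : Fin r) (σ : E i →+* W.K) : N' i σ = N' i (cj σ) := by
  obtain ⟨j0, -, m0, hm0, hpr⟩ := hT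
  rw [Multiset.map_singleton, Multiset.prod_singleton] at hpr
  change ν₀ ^ m0 = _ at hpr
  refine hN m 1 hm rfl N' hN' (D - j0) (N * m0) (Nat.mul_pos hN0 hm0) ?_ i σ
  rw [one_pow, mul_one]
  have h1 := congrArg (fun z => z ^ m0) hrel
  simp only [mul_pow, letterProd_pow] at h1
  set P : ℕ := ∏ j, (e j * Φ.e (X j)) with hP
  have h2 : ((ν₀ ^ t) ^ (N * P)) ^ m0 = (p : W.K) ^ (m * j0 * (N * m0 * P)) := by
    rw [← pow_mul, ← pow_mul, show t * (N * P * m0) = m0 * (t * (N * P)) by ring,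
      pow_mul ν₀ m0, hpr]
    push_cast
    rw [← pow_mul, ← pow_mul, ht]
    congr 1
    ring
  rw [h2] at h1
  have h3 : (fun i => N * m0 * (m * ∏ j ∈ Finset.univ.erase i, (e j * Φ.e (X j)))) =
      fun i => m0 * (N * (m * ∏ j ∈ Finset.univ.erase i, (e j * Φ.e (X j)))) := by
    funext i
    ring
  rw [h3]
  have h4 : (p : W.K) ^ (m * j0 * (N * m0 * P)) ≠ 0 := pow_ne_zero _ hp
  apply mul_right_cancel₀ h4
  rw [h1, ← zpow_natCast, ← zpow_natCast, ← zpow_mul, ← zpow_add₀ hp]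
  congr 1
  push_cast
  ring

theorem letterProd_add {Ω : Type*} [Field Ω] [CharZero Ω] (w : Fin r → ℕ)
    (n n' : ∀ i, (E i →+* Ω) → ℕ) :
    letterProd α w (fun i σ => n i σ + n' i σ) = letterProd α w n * letterProd α w n' := by
  unfold letterProd
  rw [← Finset.prod_mul_distrib]
  refine Finset.prod_congr rfl fun i _ => ?_
  rw [← Finset.prod_mul_distrib]
  refine Finset.prod_congr rfl fun σ _ => ?_
  rw [mul_add, pow_add]

open scoped Classical in
theorem letterProd_single {Ω : Type*} [Field Ω] [CharZero Ω] (w : Fin r → ℕ) (j : Fin r)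
    (τ : E j →+* Ω) :
    letterProd α w (Pi.single j (Pi.single τ 1)) = τ (α j) ^ (w j) := by
  unfold letterProd
  rw [Finset.prod_eq_single j]
  · rw [Finset.prod_eq_single τ]
    · rw [Pi.single_eq_same, Pi.single_eq_same, mul_one]
    · intro σ _ hσ
      rw [Pi.single_eq_same, Pi.single_eq_of_ne hσ, mul_zero, pow_zero]
    · intro h
      exact absurd (Finset.mem_univ _) h
  · intro i _ hi
    refine Finset.prod_eq_one fun σ _ => ?_
    rw [Pi.single_eq_of_ne hi]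
    simp
  · intro h
    exact absurd (Finset.mem_univ _) h

/-- no relations with the eigenvalues of another letter -/
theorem noRel_letter [IsAlgClosed W.K] (hp : (p : W.K) ≠ 0) {n : Fin r → ℕ} {j : Fin r}
    (hnj : n j = 0) (heven : Even (X j).dim)
    (hN : NoRelation Φ (fun _ ν => ν = 1) X e α (n + Pi.single j 1))
    {m t : ℕ} {ν₀ : W.K} (hm : 0 < m) (ht : m = Φ.e (X j) * t) {d : ℕ} {τ : E j →+* W.K}
    (hT : IsLet (p ^ Φ.e (X j)) (X j).dim (e j) 1 (α j) τ (d, ν₀))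
    (N' : ∀ i, (E i →+* W.K) → ℕ) (hN' : ∀ i, ∑ σ : E i →+* W.K, N' i σ ≤ n i) (D : ℤ) (N : ℕ)
    (hN0 : 0 < N)
    (hrel : letterProd α (fun i => N * (m * ∏ j ∈ Finset.univ.erase i, (e j * Φ.e (X j)))) N' *
      (ν₀ ^ t) ^ (N * ∏ j, (e j * Φ.e (X j))) =
        (p : W.K) ^ (m * D * (N * ∏ j, (e j * Φ.e (X j)) : ℕ))) : False := by
  classical
  obtain ⟨-, N0, hN00, hpr⟩ := hT
  change ν₀ ^ (2 * e j * N0) = _ at hpr
  obtain ⟨b, hb⟩ := heven
  have hzero : ∀ σ, N' j σ = 0 := by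
    intro σ
    have h1 := hN' j
    rw [hnj, Nat.le_zero, Finset.sum_eq_zero_iff] at h1
    exact h1 σ (Finset.mem_univ _)
  have hk := hN m 1 hm rfl
    (fun i σ => N' i σ + (Pi.single j (Pi.single τ 1) : ∀ i, (E i →+* W.K) → ℕ) i σ) (fun i => ?_)
    (D - b) (2 * N0 * N) (Nat.mul_pos (Nat.mul_pos two_pos hN00) hN0) ?_ j τ
  · beta_reduce at hk
    rw [hzero, hzero, Pi.single_eq_same, Pi.single_eq_same,
      Pi.single_eq_of_ne (cj_ne_self τ)] at hk
    omega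
  · rw [Finset.sum_add_distrib, Pi.add_apply]
    refine add_le_add (hN' i) ?_
    by_cases hij : i = j
    · subst hij
      rw [Pi.single_eq_same, Pi.single_eq_same, Finset.sum_pi_single' τ (1 : ℕ) Finset.univ]
      simp
    · rw [Pi.single_eq_of_ne hij]
      simp
  rw [one_pow, mul_one, letterProd_add, letterProd_single]
  have h1 := congrArg (fun z => z ^ (2 * N0)) hrel
  simp only [mul_pow, letterProd_pow] at h1
  set P : ℕ := ∏ j, (e j * Φ.e (X j)) with hP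
  set P' : ℕ := ∏ l ∈ Finset.univ.erase j, (e l * Φ.e (X l)) with hP'
  have hPj : P = e j * Φ.e (X j) * P' :=
    (Finset.mul_prod_erase Finset.univ (fun j => e j * Φ.e (X j)) (Finset.mem_univ j)).symm
  have h2 : ((ν₀ ^ t) ^ (N * P)) ^ (2 * N0) = (p : W.K) ^ (m * b * (2 * N0 * N * P)) *
      τ (α j) ^ (2 * N0 * N * (m * P')) := by
    rw [← pow_mul, ← pow_mul, show t * (N * P * (2 * N0)) =
      2 * e j * N0 * (t * N * Φ.e (X j) * P') by rw [hPj]; ring,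
      pow_mul ν₀ (2 * e j * N0), hpr, mul_pow]
    push_cast
    rw [← pow_mul, ← pow_mul, ← pow_mul, ht, hb, hPj]
    congr 2 <;> ring
  rw [h2] at h1
  have h3 : (fun i => 2 * N0 * N * (m * ∏ j ∈ Finset.univ.erase i, (e j * Φ.e (X j)))) =
      fun i => 2 * N0 * (N * (m * ∏ j ∈ Finset.univ.erase i, (e j * Φ.e (X j)))) := by
    funext i
    ring
  rw [h3]
  have h4 : (p : W.K) ^ (m * b * (2 * N0 * N * P)) ≠ 0 := pow_ne_zero _ hp
  apply mul_left_cancel₀ h4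
  rw [mul_left_comm] at h1
  rw [h1, ← zpow_natCast, ← zpow_natCast, ← zpow_mul, ← zpow_add₀ hp]
  congr 1
  push_cast
  ring

end Pool.Agent.N179.HT
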