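import Pool.Agent.N179.HT.Fin

/-!
# The conjecture of Hodge type for products of K3 surfaces of different heights: the main theorem
-/

set_option autoImplicit false
set_option linter.unusedSectionVars false

open CategoryTheory AlgebraicGeometry NumberField

universe u v

namespace Pool.Agent.N179.HT

open Pool.Agent.H914 Pool.Agent.H914.VarClass Pool.Agent.H914.VarClass.Obj
  Pool.Agent.H914.WeilCohomology Pool.Agent.H281R3.HT Pool.Agent.W552 Pool.Agent.W534
  Pool.Agent.W458.RK Pool.Agent.W458.MF Pool.Agent.TH132.A Pool.Agent.W536.RR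
  Pool.Agent.TH121.KT Pool.Agent.W517.K3 Pool.Agent.Y138.KC Pool.Agent.W290.MF
  Pool.Agent.Y138.KH Pool.Agent.N179.TL Pool.Agent.H485R3

variable {k : Type u} [Field k] {𝒱 : VarClass k} {ops : CycleOps 𝒱}
  {W : WeilCohomology.{u, v} ops} {p : ℕ} [Fact p.Prime] {Φ : FrobSystem W p}
  {r : ℕ} {X : Fin r → 𝒱.Obj} {e : Fin r → ℕ} {E : Fin r → Type} [∀ i, Field (E i)]
  [∀ i, NumberField (E i)] [∀ i, IsCMField (E i)] {α : ∀ i, E i} {h b : Fin r → ℕ}
  {Γ : Set ℚ} {n : ℕ} {P : Fin (n + 1) → Polarized 𝒱} {idx : Fin (n + 1) → Option (Fin r)}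

theorem Data.diag [IsAlgClosed W.K] (S : Data Φ X e α h b Γ P idx) (a : Fin (n + 1)) (s : ℕ) :
    Diagonalizable W (W534.iter (Φ.Fr (P a).X) s) := by
  have h1 := S.hP a
  rcases hi : idx a with _ | i
  · rw [hi] at h1
    exact diag_iter s (diag_of_alg fun x => by
      rw [show algSpan W (P a).X = ⊤ from h1]
      trivial)
  · rw [hi] at h1
    have h2 : (P a).X = X i := h1
    rw [h2]
    exact diag_iter s (diag_of_weilNumber (S.hX i).weil)

theorem Data.hodge_nest [IsAlgClosed W.K] (S : Data Φ X e α h b Γ P idx) :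
    HodgeType W (nest ops n P).X (nest ops n P).D := by
  classical
  have hp := (Fact.out : p.Prime)
  have hpK : (p : W.K) ≠ 0 := Nat.cast_ne_zero.2 hp.ne_zero
  set M : ℕ := (∏ i, Φ.e (X i)) * ∏ a, Φ.e (P a).X with hMdef
  have hM : 0 < M := Nat.mul_pos (Finset.prod_pos fun i _ => Φ.e_pos _)
    (Finset.prod_pos fun a _ => Φ.e_pos _)
  have hrr : ∀ i, ∃ rr, Φ.e (X i) * rr = M := by
    intro i
    obtain ⟨c, hc⟩ := Finset.dvd_prod_of_mem (fun i => Φ.e (X i)) (Finset.mem_univ i)
    exact ⟨c * ∏ a, Φ.e (P a).X, by rw [hMdef, hc]; ring⟩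
  have hss : ∀ a, ∃ s, Φ.e (P a).X * s = M := by
    intro a
    obtain ⟨c, hc⟩ := Finset.dvd_prod_of_mem (fun a => Φ.e (P a).X) (Finset.mem_univ a)
    exact ⟨(∏ i, Φ.e (X i)) * c, by rw [hMdef, hc]; ring⟩
  choose rr hr using hrr
  choose s hs using hss
  have hq : (p ^ M : ℕ) ≠ 0 := pow_ne_zero _ hp.ne_zero
  have hqK : ((p ^ M : ℕ) : W.K) ≠ 0 := Nat.cast_ne_zero.2 hq
  refine hodge_fam (f := fun a => W534.iter (Φ.Fr (P a).X) (s a)) (q := p ^ M) hq S.hD S.hdeg
    S.hHL (fun a => S.diag a (s a))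
    (fun a => frob_nest hM 0 (fun _ => P a) (fun _ => s a) (fun _ => hs a))
    (frob_nest hM n P s hs)
    (fun a b => tate_pair_gen hM (hs a) (hs b) (S.tate_pair a b)) ?_ S.hodge_pair
  intro x hx hrel
  -- the tags
  have htag : ∀ a, ∃ t : Tag E W.K, (t = none → IsTateRel (p ^ M) ({x a} : Multiset _)) ∧
      ∀ i σ, t = some ⟨i, σ⟩ → idx a = some i ∧
        IsLet (p ^ M) (X i).dim (e i) (rr i) (α i) σ (x a) := by
    intro a
    have h1 := S.hP a
    have h2 := hx a
    rcases hi : idx a with _ | i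
    · rw [hi] at h1
      refine ⟨none, fun _ => ?_, fun i σ h => by simp at h⟩
      have h3 := alg_iter (fun x => by
        rw [show algSpan W (P a).X = ⊤ from h1]
        trivial) h2
      rwa [hs a] at h3
    · rw [hi] at h1
      have h4 : (P a).X = X i := h1
      have h5 : s a = rr i := by
        have h6 := (hs a).trans (hr i).symm
        rw [h4] at h6
        exact Nat.eq_of_mul_eq_mul_left (Φ.e_pos _) h6
      beta_reduce at h2
      rw [h4] at h2
      rcases cases_iter (S.hX i).weil h2 with h3 | ⟨τ, h3⟩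
      · rw [h5, hr i] at h3
        exact ⟨none, fun _ => h3, fun i σ h => by simp at h⟩
      · rw [h5, hr i] at h3
        refine ⟨some ⟨i, τ⟩, fun h => by simp at h, fun j σ h => ?_⟩
        rw [Option.some.injEq, Sigma.mk.injEq] at h
        obtain ⟨rfl, h⟩ := h
        rw [heq_eq_eq] at h
        subst h
        exact ⟨rfl, h3⟩
  choose t ht0 ht1 using htag
  have hmap : (((List.finRange (n + 1) : List (Fin (n + 1))) : Multiset (Fin (n + 1))).map
      fun a => (t a, x a)).map Prod.snd =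
      ((List.finRange (n + 1) : List (Fin (n + 1))) : Multiset (Fin (n + 1))).map x := by
    rw [Multiset.map_map]
    rfl
  have hNR := noRel_one S.hX S.hΓ S.hA
  rw [← hmap] at hrel ⊢
  refine pairGen (α := α) (n := copiesO idx) (D := fun i => (X i).dim) (e := e)
    (a := fun i => Φ.e (X i)) (rr := rr) (M := M) (fun i => (S.hX i).number.frob.unitary) hqK
    (fun i => (S.hX i).weil.pos) (fun i => Φ.e_pos _) hr ?_ _ _ rfl ?_ ?_ ?_ hrel
  · intro N' hN' N hN h1 i σ
    refine hNR M 1 hM rfl N' hN' 0 N hN ?_ i σ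
    rw [h1, one_pow, mul_one, mul_zero, zero_mul, zpow_zero]
  · intro y hy
    obtain ⟨a, -, rfl⟩ := Multiset.mem_map.1 hy
    exact ht0 a
  · intro y hy i σ h
    obtain ⟨a, -, rfl⟩ := Multiset.mem_map.1 hy
    exact (ht1 a i σ h).2
  · intro i
    rw [Multiset.map_map]
    have h1 : ∀ σ : E i →+* W.K, Multiset.count (some ⟨i, σ⟩)
        (((List.finRange (n + 1) : List (Fin (n + 1))) : Multiset (Fin (n + 1))).map
          (Prod.fst ∘ fun a => (t a, x a))) =
        (Finset.univ.filter fun a => some ⟨i, σ⟩ = t a).card := by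
      intro σ
      rw [Multiset.count_map]
      rfl
    rw [Finset.sum_congr rfl fun σ _ => h1 σ, ← Finset.card_biUnion, copiesO]
    · refine Finset.card_le_card fun a ha => ?_
      rw [Finset.mem_biUnion] at ha
      obtain ⟨σ, -, hσ⟩ := ha
      rw [Finset.mem_filter] at hσ ⊢
      exact ⟨Finset.mem_univ _, (ht1 a i σ hσ.2.symm).1⟩
    · intro σ _ τ _ hστ
      rw [Function.onFun, Finset.disjoint_left]
      intro a h2 h3
      rw [Finset.mem_filter] at h2 h3
      have h4 := h2.2.trans h3.2.symm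
      rw [Option.some.injEq, Sigma.mk.injEq, heq_eq_eq] at h4
      exact hστ h4.2

/-- **The conjecture of Hodge type for products of K3 surfaces of different heights.** -/
theorem Data.final [IsAlgClosed W.K] (S : Data Φ X e α h b Γ P idx) :
    HomEqNum W (nest ops n P).X ∧ HodgeType W (nest ops n P).X (nest ops n P).D ∧
    ∀ U : Polarized 𝒱, SlopesIn Φ Γ U.X → U.X.IsCyc 1 U.D → HardLefschetz W U.X U.D →
      (HomEqNum W ((nest ops n P).X.prod U.X) ↔ HomEqNum W U.X) ∧
      (HodgeType W ((nest ops n P).prod ops U).X ((nest ops n P).prod ops U).D ↔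
        HodgeType W U.X U.D) := by
  have hp := (Fact.out : p.Prime)
  have hNR := noRel_slopes S.hX S.hA
  have hZ : IsProductOfCopies W X (copiesO idx) (nest ops n P).X := by
    rw [← sum_cp]
    exact nest_copies n P idx S.hP
  have hTT : TateTimesL Φ (fun m ν => PPs p Γ m ν) (nest ops n P).X :=
    tateTimesL_products hp (fun i => (S.hX i).weil) (fun i => (S.hX i).number.frob.unitary)
      (fun i => (S.hX i).even) hZ hNR
  have h1PP : ∀ m, 0 < m → PPs p Γ m (1 : W.K) := fun m _ => PPs_one S.hΓ m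
  have hpow : ∀ m (ν : W.K) (n : ℕ), 0 < n → PPs p Γ m ν → PPs p Γ (m * n) (ν ^ n) :=
    fun m ν n hn h => PPs_pow m ν n hn h
  have hD := homEqNum_of_tateTimesL hp.one_lt hTT h1PP
  have hone : (1 : W.H (nest ops n P).X) ≠ 0 :=
    nest_one n _ fun i => one_ne_of_deg (S.hD i) (S.hdeg i)
  refine ⟨hD, S.hodge_nest, fun U hU hB hHL => ?_⟩
  have hU' : ∀ ν, Module.End.HasEigenvalue (W.map (Φ.Fr U.X)).toLinearMap ν →
      PPs p Γ (Φ.e U.X) ν := fun ν hν =>
    ⟨Φ.e U.X, 1, ν, one_pos, (mul_one _).symm, (pow_one ν).symm, hU ν hν⟩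
  refine ⟨homEqNum_prod_iff (fun z hz => tens_of_tateTimesL hp.one_lt hTT h1PP hpow hU' hz) hD
    hone, ?_⟩
  exact hodge_timesL hp.one_lt hTT h1PP hpow
    (nest_lw n _ fun i => by
      obtain ⟨f, Ff, -⟩ := exists_lw (S.hD i) (S.hHL i)
      exact ⟨f, Ff⟩) hone S.hodge_nest hU' hB hHL

theorem copiesO_some (idx : Fin (n + 1) → Fin r) :
    copiesO (fun a => some (idx a)) = copies idx := by
  funext i
  simp [copiesO, copies]

/-- the hypotheses without algebraic factors -/
theorem data_mk {idx : Fin (n + 1) → Fin r}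
    (hX : ∀ i, IsK3Variety Φ (X i) (e i) (α i) (h i) (b i)) (hΓ : (0 : ℚ) ∈ Γ)
    (hP : ∀ a, (P a).X = X (idx a))
    (hA : Admissible Γ h b (fun i => Module.finrank ℚ (E i) / 2)
      (fun i => localDegree p (α i)) (copies idx))
    (hD : ∀ a, (P a).X.IsCyc 1 (P a).D)
    (hdeg : ∀ a, 0 < (P a).X.V.degCycle (divPow ops (P a).D (P a).X.dim (P a).X.V.fundCycle))
    (hHL : ∀ a, HardLefschetz W (P a).X (P a).D)
    (hH2 : ∀ a b, idx a = idx b →
      HodgeType W ((P a).prod ops (P b)).X ((P a).prod ops (P b)).D) :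
    Data Φ X e α h b Γ P (fun a => some (idx a)) := by
  refine ⟨hX, hΓ, ?_, hP, hD, hdeg, hHL, fun a h => by simp at h, fun a b i ha hb => ?_⟩
  · rw [copiesO_some]
    exact hA
  · exact hH2 a b ((Option.some.inj ha).trans (Option.some.inj hb).symm)

end Pool.Agent.N179.HT
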