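import Pool.Agent.N179.HT.Defs
import Pool.Agent.N179.TL.Fin
import Pool.Agent.W552.FrobMain

/-!
# Products of K3 surfaces: the numbers of copies
-/

set_option autoImplicit false
set_option linter.unusedSectionVars false

open CategoryTheory AlgebraicGeometry NumberField

universe u v

namespace Pool.Agent.N179.HT

open Pool.Agent.H914 Pool.Agent.H914.VarClass Pool.Agent.H914.VarClass.Obj
  Pool.Agent.H914.WeilCohomology Pool.Agent.H281R3.HT Pool.Agent.W552 Pool.Agent.W534
  Pool.Agent.TH121.KT Pool.Agent.W517.K3 Pool.Agent.Y138.KC Pool.Agent.N179.TL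
  Pool.Agent.H485R3

variable {k : Type u} [Field k] {𝒱 : VarClass k} {ops : CycleOps 𝒱}
  {W : WeilCohomology.{u, v} ops}

/-- `Y` is a factor with the index `o`: for `o = some i` it is the variety `X i`, for `o = none` it is
a variety whose cohomology is spanned by the classes of algebraic cycles. -/
def IsFactor (W : WeilCohomology.{u, v} ops) {r : ℕ} (X : Fin r → 𝒱.Obj) :
    Option (Fin r) → 𝒱.Obj → Prop
  | none, Y => algSpan W Y = ⊤
  | some i, Y => Y = X i

/-- The number of factors with the index `i`. -/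
def copiesO {r n : ℕ} (idx : Fin n → Option (Fin r)) (i : Fin r) : ℕ :=
  (Finset.univ.filter fun a => idx a = some i).card

/-- the numbers of copies in one factor -/
def cp {r : ℕ} : Option (Fin r) → Fin r → ℕ
  | none => 0
  | some i => Pi.single i 1

theorem sum_cp {r n : ℕ} (idx : Fin n → Option (Fin r)) : ∑ a, cp (idx a) = copiesO idx := by
  funext i
  rw [Finset.sum_apply, copiesO, Finset.card_filter]
  refine Finset.sum_congr rfl fun a _ => ?_
  rcases h : idx a with _ | j
  · simp [cp]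
  · by_cases hij : i = j
    · subst hij
      simp [cp]
    · rw [if_neg (fun h => hij (Option.some.inj h).symm)]
      simp [cp, Pi.single_eq_of_ne hij]

theorem cp_le {r n : ℕ} (idx : Fin n → Option (Fin r)) (a : Fin n) : cp (idx a) ≤ copiesO idx := by
  rw [← sum_cp]
  exact Finset.single_le_sum (f := fun a => cp (idx a)) (fun _ _ => zero_le) (Finset.mem_univ a)

theorem cp_add_le {r n : ℕ} (idx : Fin n → Option (Fin r)) {a b : Fin n} (hab : a ≠ b) :
    cp (idx a) + cp (idx b) ≤ copiesO idx := by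
  rw [← sum_cp, ← Finset.sum_pair (f := fun a => cp (idx a)) hab]
  exact Finset.sum_le_sum_of_subset (f := fun a => cp (idx a)) (Finset.subset_univ _)

theorem IsFactor.copies {r : ℕ} {X : Fin r → 𝒱.Obj} {o : Option (Fin r)} {Y : 𝒱.Obj}
    (h : IsFactor W X o Y) : IsProductOfCopies W X (cp o) Y := by
  rcases o with _ | i
  · exact IsProductOfCopies.alg h
  · obtain rfl : Y = X i := h
    exact IsProductOfCopies.base i

theorem nest_copies {r : ℕ} {X : Fin r → 𝒱.Obj} : ∀ (n : ℕ) (P : Fin (n + 1) → Polarized 𝒱)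
    (idx : Fin (n + 1) → Option (Fin r)), (∀ a, IsFactor W X (idx a) (P a).X) →
      IsProductOfCopies W X (∑ a, cp (idx a)) (nest ops n P).X
  | 0, P, idx, h => by
    rw [Fin.sum_univ_one]
    exact (h 0).copies
  | n + 1, P, idx, h => by
    rw [Fin.sum_univ_succ]
    exact IsProductOfCopies.prod (h 0).copies
      (nest_copies n (fun i => P i.succ) (fun i => idx i.succ) fun a => h a.succ)

theorem noRel_mono {p : ℕ} {Φ : FrobSystem W p} {r : ℕ} {X : Fin r → 𝒱.Obj} {e : Fin r → ℕ}
    {K : Fin r → Type} [∀ i, Field (K i)] {α : ∀ i, K i} [∀ i, NumberField (K i)]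
    [∀ i, IsCMField (K i)] {PP : ℕ → W.K → Prop} {n n' : Fin r → ℕ}
    (h : NoRelation Φ PP X e α n) (hn : n' ≤ n) : NoRelation Φ PP X e α n' :=
  fun m ν hm hν N' hN' => h m ν hm hν N' fun i => (hN' i).trans (hn i)

/-- the height is not zero -/
theorem height_ne {p : ℕ} [Fact p.Prime] {a : ℕ} {E : Type} [Field E] [NumberField E] {α : E}
    {h b : ℕ} (hα : IsK3Number p a α h b) (ha : 0 < a) : h ≠ 0 := by
  rintro rfl
  obtain ⟨L, iF, iA, iFin, iGal, hlift'⟩ := H485R3.Exact.exists_common' (fun _ : Fin 1 => E)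
  let e : L →ₐ[ℚ] PadicAlgCl p :=
    RingHom.toRatAlgHom ((IsAlgClosed.lift : Qb →ₐ[ℚ] PadicAlgCl p).toRingHom.comp
      ((IsAlgClosed.lift : L →ₐ[ℚ] Qb) : L →+* Qb))
  obtain ⟨σ₀⟩ : Nonempty (E →+* Qb) := inferInstance
  obtain ⟨φ₀, -⟩ := hlift' (IsAlgClosed.lift : L →ₐ[ℚ] Qb) 0 (RingHom.toRatAlgHom σ₀)
  have hNF : NumberField L := by
    refine @NumberField.mk L _ ?_ ?_
    · exact charZero_of_injective_algebraMap (algebraMap ℚ L).injective
    · convert iFin
      exact Subsingleton.elim _ _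
  have := hα.frob.cm
  obtain ⟨φ, hφ⟩ := exists_vv_eq_one hα.frob e φ₀
  have h1 := hα.height ((e : L →+* PadicAlgCl p).comp (φ : E →+* L))
    ((vv_eq_one_iff e φ).1 hφ)
  rw [pow_zero] at h1
  have hp1 : (1 : ℝ) < p := by exact_mod_cast (Fact.out : p.Prime).one_lt
  exact (one_lt_pow₀ hp1 ha.ne').ne h1

end Pool.Agent.N179.HT
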