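import Mathlib

/-!
# Products of K3 surfaces: the numbers of copies
-/

set_option autoImplicit false

namespace Pool.Agent.N179.HT

/-- The number of factors with the index `i`. -/
def copies {r n : ℕ} (idx : Fin n → Fin r) (i : Fin r) : ℕ :=
  (Finset.univ.filter fun a => idx a = i).card

end Pool.Agent.N179.HT
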