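import Pool.Agent.N179.HT.Mix

/-!
# The conjecture of Hodge type for products of K3 surfaces of different heights
-/

set_option autoImplicit false
set_option linter.unusedSectionVars false

open CategoryTheory AlgebraicGeometry NumberField

universe u v

namespace Pool.Agent.N179.HT

open Pool.Agent.H914 Pool.Agent.H914.VarClass Pool.Agent.H914.VarClass.Obj
  Pool.Agent.H914.WeilCohomology Pool.Agent.H281R3.HT Pool.Agent.W552 Pool.Agent.W534
  Pool.Agent.W458.RK Pool.Agent.W458.MF Pool.Agent.TH132.A Pool.Agent.W536.RR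
  Pool.Agent.TH121.KT Pool.Agent.W517.K3 Pool.Agent.Y138.KC Pool.Agent.W290.MF
  Pool.Agent.Y138.KH Pool.Agent.N179.TL Pool.Agent.H485R3

section noRel

variable {k : Type u} [Field k] {𝒱 : VarClass k} {ops : CycleOps 𝒱}
  {W : WeilCohomology.{u, v} ops} {p : ℕ} [Fact p.Prime] {Φ : FrobSystem W p}
  {r : ℕ} {X : Fin r → 𝒱.Obj} {e : Fin r → ℕ} {E : Fin r → Type} [∀ i, Field (E i)]
  [∀ i, NumberField (E i)] [∀ i, IsCMField (E i)] {α : ∀ i, E i} {h b n : Fin r → ℕ}

theorem finrank_half (i : Fin r) :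
    Module.finrank ℚ (E i) = 2 * (Module.finrank ℚ (E i) / 2) := by
  have h6 : IsTotallyComplex (E i) := inferInstance
  have h7 := IsTotallyComplex.finrank (E i)
  omega

theorem noRel_slopes [IsAlgClosed W.K] (hX : ∀ i, IsK3Variety Φ (X i) (e i) (α i) (h i) (b i))
    {Γ : Set ℚ}
    (hA : Admissible Γ h b (fun i => Module.finrank ℚ (E i) / 2)
      (fun i => localDegree p (α i)) n) :
    NoRelation Φ (fun m ν => PPs p Γ m ν) X e α n := by
  intro m ν hm hν N' hN' D N hN hrel i σ
  exact core (fun i => Nat.mul_pos (hX i).weil.pos (Φ.e_pos _)) (fun i => (hX i).number)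
    finrank_half hA hm hν N' hN' D N hN hrel i σ

theorem noRel_one [IsAlgClosed W.K] (hX : ∀ i, IsK3Variety Φ (X i) (e i) (α i) (h i) (b i))
    {Γ : Set ℚ} (hΓ : (0 : ℚ) ∈ Γ)
    (hA : Admissible Γ h b (fun i => Module.finrank ℚ (E i) / 2)
      (fun i => localDegree p (α i)) n) :
    NoRelation Φ (fun _ ν => ν = 1) X e α n := by
  intro m ν hm hν
  exact noRel_slopes hX hA m ν hm (by
    rw [show ν = 1 from hν]
    exact PPs_one hΓ m)

/-- the condition for one K3 surface and two copies -/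
theorem admissible_two {h b d m : Fin r → ℕ} (hh : ∀ i, h i ≠ 0) (i : Fin r) :
    Admissible {0} h b d m (Pi.single i 2) := by
  have hiso : ∀ l, Isolated {0} h (Pi.single i 2) l := by
    intro l a ha hsum
    have h1 : ∀ j, j ≠ i → a j = 0 := by
      intro j hj
      have h2 := ha j
      rw [Pi.single_eq_of_ne hj] at h2
      exact abs_nonpos_iff.1 (by simpa using h2)
    by_cases hl : l = i
    · subst hl
      rw [Finset.sum_eq_single l (fun j _ hj => by rw [h1 j hj]; simp)
        (fun h => absurd (Finset.mem_univ _) h), Set.mem_singleton_iff, div_eq_zero_iff] at hsum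
      rcases hsum with h2 | h2
      · exact_mod_cast h2
      · exact absurd (by exact_mod_cast h2) (hh l)
    · exact h1 l hl
  refine ⟨fun l _ => Or.inl ?_, fun l hl => absurd (hiso l) hl, ?_⟩
  · by_cases hl : l = i
    · subst hl
      rw [Pi.single_eq_same]
    · rw [Pi.single_eq_of_ne hl]
      omega
  · rintro ⟨j, _, _, ⟨hj, -⟩, -⟩
    exact hj (hiso j)

theorem noRel_two [IsAlgClosed W.K] (hX : ∀ i, IsK3Variety Φ (X i) (e i) (α i) (h i) (b i))
    (i : Fin r) : NoRelation Φ (fun _ ν => ν = 1) X e α (Pi.single i 2) :=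
  noRel_one hX (Set.mem_singleton 0) (admissible_two (fun j => height_ne (hX j).number
    (Nat.mul_pos (hX j).weil.pos (Φ.e_pos _))) i)

end noRel

/-- the hypotheses -/
structure Data {k : Type u} [Field k] {𝒱 : VarClass k} {ops : CycleOps 𝒱}
    {W : WeilCohomology.{u, v} ops} {p : ℕ} [Fact p.Prime] (Φ : FrobSystem W p)
    {r : ℕ} (X : Fin r → 𝒱.Obj) (e : Fin r → ℕ) {E : Fin r → Type} [∀ i, Field (E i)]
    [∀ i, NumberField (E i)] [∀ i, IsCMField (E i)] (α : ∀ i, E i) (h b : Fin r → ℕ)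
    (Γ : Set ℚ) {n : ℕ} (P : Fin (n + 1) → Polarized 𝒱)
    (idx : Fin (n + 1) → Option (Fin r)) : Prop where
  hX : ∀ i, IsK3Variety Φ (X i) (e i) (α i) (h i) (b i)
  hΓ : (0 : ℚ) ∈ Γ
  hA : Admissible Γ h b (fun i => Module.finrank ℚ (E i) / 2) (fun i => localDegree p (α i))
    (copiesO idx)
  hP : ∀ a, IsFactor W X (idx a) (P a).X
  hD : ∀ a, (P a).X.IsCyc 1 (P a).D
  hdeg : ∀ a, 0 < (P a).X.V.degCycle (divPow ops (P a).D (P a).X.dim (P a).X.V.fundCycle)
  hHL : ∀ a, HardLefschetz W (P a).X (P a).D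
  hH0 : ∀ a, idx a = none → HodgeType W (P a).X (P a).D
  hH2 : ∀ a b i, idx a = some i → idx b = some i →
    HodgeType W ((P a).prod ops (P b)).X ((P a).prod ops (P b)).D

variable {k : Type u} [Field k] {𝒱 : VarClass k} {ops : CycleOps 𝒱}
  {W : WeilCohomology.{u, v} ops} {p : ℕ} [Fact p.Prime] {Φ : FrobSystem W p}
  {r : ℕ} {X : Fin r → 𝒱.Obj} {e : Fin r → ℕ} {E : Fin r → Type} [∀ i, Field (E i)]
  [∀ i, NumberField (E i)] [∀ i, IsCMField (E i)] {α : ∀ i, E i} {h b : Fin r → ℕ}
  {Γ : Set ℚ} {n : ℕ} {P : Fin (n + 1) → Polarized 𝒱} {idx : Fin (n + 1) → Option (Fin r)}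

theorem Data.noRel_pair [IsAlgClosed W.K] (S : Data Φ X e α h b Γ P idx) (a b : Fin (n + 1)) :
    NoRelation Φ (fun _ ν => ν = 1) X e α (cp (idx a) + cp (idx b)) := by
  by_cases hab : a = b
  · subst hab
    rcases hi : idx a with _ | i
    · refine noRel_mono (noRel_one S.hX S.hΓ S.hA) ?_
      intro i
      simp [cp]
    · refine noRel_mono (noRel_two S.hX i) ?_
      intro j
      by_cases hj : j = i
      · subst hj
        simp [cp]
      · simp [cp, Pi.single_eq_of_ne hj]
  · exact noRel_mono (noRel_one S.hX S.hΓ S.hA) (cp_add_le idx hab)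

theorem Data.tate_pair [IsAlgClosed W.K] (S : Data Φ X e α h b Γ P idx) (a b : Fin (n + 1))
    (c : ℕ) : TateIn Φ ((P a).X.prod (P b).X) c := by
  have hTT : TateTimesL Φ (fun _ ν => ν = 1) ((P a).X.prod (P b).X) :=
    tateTimesL_products (Fact.out : p.Prime) (fun i => (S.hX i).weil)
      (fun i => (S.hX i).number.frob.unitary) (fun i => (S.hX i).even)
      (IsProductOfCopies.prod (S.hP a).copies (S.hP b).copies) (S.noRel_pair a b)
  have h1 := (tateIn_prod_lev (Fact.out : p.Prime).one_lt hTT (fun _ _ => rfl)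
    (fun _ ν n _ h => by rw [show ν = 1 from h, one_pow])).1 c
  intro y hy
  obtain ⟨s, hs, h⟩ := IsTate.mem Φ hy
  exact h1 s hs h

theorem Data.tate_one [IsAlgClosed W.K] (S : Data Φ X e α h b Γ P idx) (a : Fin (n + 1)) :
    HodgeType W (P a).X (P a).D := by
  rcases hi : idx a with _ | i
  · exact S.hH0 a hi
  · exact H914.hodge_of_square (S.hD a) (S.hdeg a) (S.hH2 a a i hi hi)

/-- The conjecture of Hodge type for the products of two factors with different indices. -/
theorem Data.hodge_ne [IsAlgClosed W.K] (S : Data Φ X e α h b Γ P idx) {a b : Fin (n + 1)}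
    (hab : ∀ j, idx b = some j → idx a ≠ some j) :
    HodgeType W ((P a).prod ops (P b)).X ((P a).prod ops (P b)).D := by
  have hp := (Fact.out : p.Prime)
  have hpK : (p : W.K) ≠ 0 := Nat.cast_ne_zero.2 hp.ne_zero
  have hN1 : NoRelation Φ (fun _ ν => ν = 1) X e α (cp (idx a)) :=
    noRel_mono (noRel_one S.hX S.hΓ S.hA) (cp_le idx a)
  have hNR : NoRelation Φ (PY Φ (P b).X) X e α (cp (idx a)) := by
    intro m ν hm hν N' hN' D N hN hrel i σ
    rcases hν with rfl | ⟨t, ν₀, ht, rfl, rfl, d, hd⟩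
    · exact hN1 m 1 hm rfl N' hN' D N hN hrel i σ
    rcases hj : idx b with _ | j
    · have h1 := S.hP b
      rw [hj] at h1
      have h2 : ∀ x : W.H (P b).X, x ∈ algSpan W (P b).X := fun x => by
        rw [show algSpan W (P b).X = ⊤ from h1]
        trivial
      have h3 := alg_iter h2 hd
      rw [mul_one] at h3
      exact noRel_tate hpK hN1 hm rfl h3 N' hN' D N hN hrel i σ
    · have h1 := S.hP b
      rw [hj] at h1
      have h2 : (P b).X = X j := h1
      have haj := hab j hj
      have hN2 : NoRelation Φ (fun _ ν => ν = 1) X e α (cp (idx a) + Pi.single j 1) := by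
        have h3 := S.noRel_pair a b
        rw [hj] at h3
        exact h3
      rw [h2] at hd hrel hm
      rcases cases_iter (S.hX j).weil hd with h3 | ⟨τ, h3⟩
      · rw [mul_one] at h3
        exact noRel_tate hpK hN1 hm rfl h3 N' hN' D N hN hrel i σ
      · rw [mul_one] at h3
        refine (noRel_letter hpK ?_ (S.hX j).even hN2 hm rfl h3 N' hN' D N hN hrel).elim
        rcases hi : idx a with _ | l
        · rfl
        · rw [hi] at haj
          change (Pi.single l 1 : Fin r → ℕ) j = 0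
          exact Pi.single_eq_of_ne (fun h => haj (by rw [h])) _
  have hTT : TateTimesL Φ (PY Φ (P b).X) (P a).X :=
    tateTimesL_products hp (fun i => (S.hX i).weil) (fun i => (S.hX i).number.frob.unitary)
      (fun i => (S.hX i).even) (S.hP a).copies hNR
  obtain ⟨f, Ff, -⟩ := exists_lw (S.hD a) (S.hHL a)
  exact (hodge_timesL hp.one_lt hTT (fun _ _ => Or.inl rfl) PY_pow ⟨f, Ff⟩
    (one_ne_of_deg (S.hD a) (S.hdeg a)) (S.tate_one a) (fun _ => PY_self) (S.hD b)
    (S.hHL b)).2 (S.tate_one b)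

theorem Data.hodge_pair [IsAlgClosed W.K] (S : Data Φ X e α h b Γ P idx) (a b : Fin (n + 1)) :
    HodgeType W ((P a).prod ops (P b)).X ((P a).prod ops (P b)).D := by
  by_cases hab : ∃ j, idx b = some j ∧ idx a = some j
  · obtain ⟨j, hb, ha⟩ := hab
    exact S.hH2 a b j ha hb
  · push Not at hab
    exact S.hodge_ne hab

end Pool.Agent.N179.HT
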