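import Pool.Agent.Y138.KH.Rel

/-!
# The relations between the eigenvalues on a product of powers of different varieties are generated
by pairs
-/

set_option autoImplicit false
set_option linter.unusedSectionVars false

open NumberField

namespace Pool.Agent.N179.HT

open Pool.Agent.W552 Pool.Agent.TH121.KT Pool.Agent.W517.K3 Pool.Agent.Y138.KC
  Pool.Agent.W290.MF Pool.Agent.Y138.KH

universe v

section

/-- the eigenvalues of the letters over an extension of degree `r` -/
def IsLet {E : Type} [Field E] {K : Type v} [Field K] (q D e r : ℕ) (α : E) (σ : E →+* K)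
    (x : ℕ × K) : Prop :=
  x.1 = D ∧ ∃ N : ℕ, 0 < N ∧
    x.2 ^ (2 * e * N) = (q : K) ^ (D * (e * N)) * σ α ^ (2 * N * r)

theorem IsLet.mul {E : Type} [Field E] {K : Type v} [Field K] {q D e r : ℕ} {α : E}
    {σ : E →+* K} {x : ℕ × K} {N : ℕ}
    (h : x.2 ^ (2 * e * N) = (q : K) ^ (D * (e * N)) * σ α ^ (2 * N * r)) (b : ℕ) :
    x.2 ^ (2 * e * (N * b)) = (q : K) ^ (D * (e * (N * b))) * σ α ^ (2 * (N * b) * r) := by
  have h4 := congrArg (fun z => z ^ b) h
  simp only [mul_pow, ← pow_mul] at h4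
  convert h4 using 2 <;> ring_nf

variable {r : ℕ} {E : Fin r → Type} [∀ i, Field (E i)] [∀ i, NumberField (E i)]
  [∀ i, IsCMField (E i)] {K : Type v} [Field K] [CharZero K]

/-- the tags -/
abbrev Tag (E : Fin r → Type) [∀ i, Field (E i)] (K : Type v) [Field K] :=
  Option (Σ i : Fin r, (E i →+* K))

theorem prod_pow_map {T : Type*} (q : K) (c : ℕ) (D : T → ℕ) (s : Multiset T) :
    (s.map fun x => q ^ (D x * c)).prod = q ^ ((s.map D).sum * c) := by
  induction s using Multiset.induction with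
  | empty => simp
  | cons a s ih =>
    rw [Multiset.map_cons, Multiset.prod_cons, ih, Multiset.map_cons, Multiset.sum_cons, add_mul,
      pow_add]

open scoped Classical in
/-- The relations of the tagged eigenvalues are generated by pairs. -/
theorem pairGen [IsAlgClosed K] {α : ∀ i, E i} (hα : ∀ i, ∀ φ : E i →+* ℂ, ‖φ (α i)‖ = 1) {n D e a rr : Fin r → ℕ}
    {q M : ℕ} (hq : (q : K) ≠ 0) (he : ∀ i, 0 < e i) (ha : ∀ i, 0 < a i)
    (hM : ∀ i, a i * rr i = M)
    (hbal : ∀ N' : ∀ i, (E i →+* K) → ℕ, (∀ i, ∑ σ : E i →+* K, N' i σ ≤ n i) → ∀ N, 0 < N →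
      letterProd α (fun i => N * (M * ∏ j ∈ Finset.univ.erase i, (e j * a j))) N' = 1 →
      ∀ i σ, N' i σ = N' i (cj σ)) :
    ∀ (c : ℕ) (s : Multiset (Tag E K × (ℕ × K))), s.card = c →
      (∀ y ∈ s, y.1 = none → IsTateRel q ({y.2} : Multiset (ℕ × K))) →
      (∀ y ∈ s, ∀ i σ, y.1 = some ⟨i, σ⟩ → IsLet q (D i) (e i) (rr i) (α i) σ y.2) →
      (∀ i, ∑ σ : E i →+* K, (s.map Prod.fst).count (some ⟨i, σ⟩) ≤ n i) →
      IsTateRel q (s.map Prod.snd) → PairGenerated q (s.map Prod.snd) := by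
  classical
  intro c
  induction c using Nat.strong_induction_on with
  | _ c ih =>
  intro s hsc hT hL hn hrel
  by_cases h1 : ∃ y ∈ s, y.1 = none
  · obtain ⟨y, hy, hy0⟩ := h1
    have hyr := hT y hy hy0
    obtain ⟨t, rfl⟩ := Multiset.exists_cons_of_mem hy
    rw [Multiset.card_cons] at hsc
    rw [Multiset.map_cons] at hrel ⊢
    refine PairGenerated.single hyr (ih t.card (by omega) t rfl
      (fun y hy => hT y (Multiset.mem_cons_of_mem hy))
      (fun y hy => hL y (Multiset.mem_cons_of_mem hy)) (fun i => ?_) ?_)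
    · refine le_trans (Finset.sum_le_sum fun σ _ => ?_) (hn i)
      rw [Multiset.map_cons]
      exact Multiset.count_le_count_cons _ _ _
    · exact tateRel_cancel (s := {y.2}) hq (by rwa [Multiset.singleton_add]) hyr
  by_cases h0 : s = 0
  · subst h0
    exact PairGenerated.zero
  have hall : ∀ y ∈ s, ∃ i σ, y.1 = some ⟨i, σ⟩ := by
    intro y hy
    rcases h : y.1 with _ | ⟨i, σ⟩
    · exact absurd ⟨y, hy, h⟩ h1
    · exact ⟨i, σ, rfl⟩
  obtain ⟨x₀, hx₀⟩ := Multiset.exists_mem_of_ne_zero h0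
  have hTne : Nonempty (Tag E K) := ⟨none⟩
  have hr : Nonempty (Fin r) := ⟨(hall x₀ hx₀).choose⟩
  choose! I hI using hall
  choose! σ hσt using hI
  have h3 : ∀ y ∈ s, IsLet q (D (I y)) (e (I y)) (rr (I y)) (α (I y)) (σ y) y.2 :=
    fun y hy => hL y hy _ _ (hσt y hy)
  choose! N hN hσ using fun y hy => (h3 y hy).2
  -- a common exponent
  obtain ⟨C, hC, hCd⟩ : ∃ C, 0 < C ∧ ∀ x ∈ s, N x ∣ C := by
    refine ⟨(s.map N).prod, ?_, ?_⟩
    · apply Nat.pos_of_ne_zero
      apply Multiset.prod_ne_zero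
      intro h
      obtain ⟨x, hx, hx'⟩ := Multiset.mem_map.1 h
      exact (hN x hx).ne' hx'
    · intro x hx
      exact Multiset.dvd_prod (Multiset.mem_map_of_mem N hx)
  have hσC : ∀ x ∈ s, x.2.2 ^ (2 * e (I x) * C) =
      (q : K) ^ (D (I x) * (e (I x) * C)) * σ x (α (I x)) ^ (2 * C * rr (I x)) := by
    intro x hx
    obtain ⟨b, hb⟩ := hCd x hx
    rw [hb]
    exact IsLet.mul (hσ x hx) b
  set P : ℕ := ∏ j, (e j * a j) with hP
  have hPi : ∀ i, P = e i * a i * ∏ j ∈ Finset.univ.erase i, (e j * a j) := fun i =>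
    (Finset.mul_prod_erase Finset.univ (fun j => e j * a j) (Finset.mem_univ i)).symm
  have hσP : ∀ x ∈ s, x.2.2 ^ (2 * C * P) =
      (q : K) ^ (D (I x) * (C * P)) *
        σ x (α (I x)) ^ (2 * C * (M * ∏ j ∈ Finset.univ.erase (I x), (e j * a j))) := by
    intro x hx
    have h4 := congrArg (fun z => z ^ (a (I x) * ∏ j ∈ Finset.univ.erase (I x), (e j * a j)))
      (hσC x hx)
    simp only [mul_pow, ← pow_mul] at h4
    rw [hPi (I x), ← hM (I x)]
    convert h4 using 2 <;> ring_nf
  have hrel0 := hrel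
  obtain ⟨j, hj, m, hm, hpr⟩ := hrel
  -- the relation between the conjugates
  let cnt : ∀ i, (E i →+* K) → ℕ := fun i σ => (s.map Prod.fst).count (some ⟨i, σ⟩)
  have hDsum : (s.map fun x => D (I x)).sum = 2 * j := by
    rw [← hj, Multiset.map_map]
    refine congrArg Multiset.sum (Multiset.map_congr rfl fun x hx => ?_)
    exact (h3 x hx).1.symm
  let g : Tag E K → K := fun t => match t with
    | none => 1
    | some ⟨i, σ⟩ => σ (α i) ^ (2 * C * m * (M * ∏ j ∈ Finset.univ.erase i, (e j * a j)))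
  have hprod : letterProd α (fun i => (2 * C * m) *
      (M * ∏ j ∈ Finset.univ.erase i, (e j * a j))) cnt = 1 := by
    have h5 : letterProd α (fun i => (2 * C * m) *
        (M * ∏ j ∈ Finset.univ.erase i, (e j * a j))) cnt =
        ((s.map Prod.fst).map g).prod := by
      rw [Finset.prod_multiset_map_count]
      have h10 : ∏ t ∈ (s.map Prod.fst).toFinset, g t ^ ((s.map Prod.fst).count t) =
          ∏ t : Tag E K, g t ^ ((s.map Prod.fst).count t) := by
        refine Finset.prod_subset (Finset.subset_univ _) ?_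
        intro τ _ hτ
        rw [Multiset.mem_toFinset, ← Multiset.count_eq_zero] at hτ
        rw [hτ, pow_zero]
      rw [h10, Fintype.prod_option, Fintype.prod_sigma]
      simp only [g, one_pow, one_mul, letterProd, cnt, ← pow_mul]
    have h6 : ((s.map Prod.fst).map g) = s.map fun x =>
        σ x (α (I x)) ^ (2 * C * m * (M * ∏ j ∈ Finset.univ.erase (I x), (e j * a j))) := by
      rw [Multiset.map_map]
      refine Multiset.map_congr rfl fun x hx => ?_
      change g x.1 = _
      rw [hσt x hx]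
    rw [h5, h6]
    have h7 : (((s.map Prod.snd).map Prod.snd).prod ^ m) ^ (2 * C * P) =
        (q : K) ^ ((2 * j) * (C * P * m)) * (s.map fun x =>
          σ x (α (I x)) ^ (2 * C * m * (M * ∏ j ∈ Finset.univ.erase (I x), (e j * a j)))).prod := by
      rw [← pow_mul, Multiset.map_map, ← Multiset.prod_map_pow]
      have h8 : (s.map fun i => ((Prod.snd ∘ Prod.snd) i : K) ^ (m * (2 * C * P))) =
          s.map (fun x => (q : K) ^ (D (I x) * (C * P * m)) * σ x (α (I x)) ^
            (2 * C * m * (M * ∏ j ∈ Finset.univ.erase (I x), (e j * a j)))) := by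
        refine Multiset.map_congr rfl fun x hx => ?_
        change x.2.2 ^ (m * (2 * C * P)) = _
        rw [mul_comm m, pow_mul, hσP x hx, mul_pow, ← pow_mul, ← pow_mul]
        congr 2 <;> ring
      rw [h8, Multiset.prod_map_mul, prod_pow_map, hDsum]
    rw [hpr, ← pow_mul] at h7
    have h8 : (q : K) ^ (m * j * (2 * C * P)) = (q : K) ^ ((2 * j) * (C * P * m)) := by
      congr 1
      ring
    rw [h8] at h7
    exact (mul_left_cancel₀ (pow_ne_zero _ hq) ((mul_one _).trans h7)).symm
  have hb := hbal cnt hn (2 * C * m) (Nat.mul_pos (Nat.mul_pos two_pos hC) hm) hprod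
  -- the partner
  have h6 : 0 < cnt (I x₀) (cj (σ x₀)) := by
    rw [← hb (I x₀) (σ x₀)]
    refine Multiset.count_pos.2 ?_
    rw [← hσt x₀ hx₀]
    exact Multiset.mem_map_of_mem _ hx₀
  obtain ⟨y, hy, hyσ⟩ := Multiset.mem_map.1 (Multiset.count_pos.1 h6)
  have hne : y ≠ x₀ := by
    rintro rfl
    rw [hσt y hx₀, Option.some.injEq, Sigma.mk.injEq, heq_eq_eq] at hyσ
    exact cj_ne_self (σ y) hyσ.2.symm
  have hLy := hL y hy _ _ hyσ
  have hLx := h3 x₀ hx₀
  obtain ⟨t, rfl⟩ := Multiset.exists_cons_of_mem hx₀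
  have hyt : y ∈ t := (Multiset.mem_cons.1 hy).resolve_left hne
  obtain ⟨t, rfl⟩ := Multiset.exists_cons_of_mem hyt
  have hpair : IsTateRel q ({x₀.2, y.2} : Multiset (ℕ × K)) := by
    obtain ⟨hD1, N1, hN1, hx1⟩ := hLx
    obtain ⟨hD2, N2, hN2, hx2⟩ := hLy
    refine ⟨D (I x₀), ?_, 2 * e (I x₀) * (N1 * N2), Nat.mul_pos (Nat.mul_pos two_pos
      (he _)) (Nat.mul_pos hN1 hN2), ?_⟩
    · rw [Multiset.insert_eq_cons, Multiset.map_cons, Multiset.map_singleton,
        Multiset.sum_cons, Multiset.sum_singleton, hD1, hD2, two_mul]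
    · have hx1' := IsLet.mul hx1 N2
      have hx2' := IsLet.mul hx2 N1
      rw [mul_comm N2 N1] at hx2'
      rw [Multiset.insert_eq_cons, Multiset.map_cons, Multiset.map_singleton,
        Multiset.prod_cons, Multiset.prod_singleton, mul_pow, hx1', hx2',
        cj_val (hα _), inv_pow]
      have h9 : (σ x₀ (α (I x₀))) ^ (2 * (N1 * N2) * rr (I x₀)) ≠ 0 := pow_ne_zero _ (by
        rw [ne_eq, map_eq_zero]
        exact alpha_ne (hα _))
      field_simp
      ring
  rw [Multiset.card_cons, Multiset.card_cons] at hsc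
  rw [Multiset.map_cons, Multiset.map_cons]
  refine PairGenerated.pair hpair (ih t.card (by omega) t rfl
    (fun z hz => hT z (Multiset.mem_cons_of_mem (Multiset.mem_cons_of_mem hz)))
    (fun z hz => hL z (Multiset.mem_cons_of_mem (Multiset.mem_cons_of_mem hz)))
    (fun i => ?_) ?_)
  · refine le_trans (Finset.sum_le_sum fun σ _ => ?_) (hn i)
    rw [Multiset.map_cons, Multiset.map_cons]
    exact (Multiset.count_le_count_cons _ _ _).trans (Multiset.count_le_count_cons _ _ _)
  · refine tateRel_cancel (s := {x₀.2, y.2}) hq ?_ hpair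
    rw [Multiset.insert_eq_cons, Multiset.cons_add, Multiset.singleton_add]
    rw [Multiset.map_cons, Multiset.map_cons] at hrel0
    exact hrel0

end

end Pool.Agent.N179.HT
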